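import Pool.Agent.Helper52.NF.St

/-! Module XR of the project NF (MP_dd34a0_co): classes after contracting stars. -/

set_option autoImplicit false

namespace Pool.Agent.Helper24.NF

open Pool.Agent.Helper52.NF Finset

theorem hXR : StXR := by
  intro ε N _ _ _ α β E NA NB X hdis hX hE
  let s : Setoid N :=
    { r := fun u u' => ∃ P ⊆ E, (∀ e ∈ P, β e ∈ X) ∧ ∀ x, bd α β P x = pt u x + pt u' x
      iseqv := by
        refine ⟨fun u => ⟨∅, Finset.empty_subset _, fun e he => absurd he (Finset.notMem_empty e),
          fun x => ?_⟩, ?_, ?_⟩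
        · rw [bd_empty, zz]
        · rintro u v ⟨P, hP, hPX, hb⟩
          exact ⟨P, hP, hPX, fun x => by rw [hb x, add_comm]⟩
        · rintro u v w ⟨P, hP, hPX, hb⟩ ⟨Q, hQ, hQX, hc⟩
          refine ⟨symmDiff P Q, ?_, ?_, ?_⟩
          · intro e he
            rw [Finset.mem_symmDiff] at he
            rcases he with he | he
            · exact hP he.1
            · exact hQ he.1
          · intro e he
            rw [Finset.mem_symmDiff] at he
            rcases he with he | he
            · exact hPX e he.1
            · exact hQX e he.1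
          · intro x
            rw [bd_symmDiff, hb x, hc x]
            have := zz (pt v x)
            linear_combination this }
  have hrel : ∀ u u', (Quotient.mk s u).out = (Quotient.mk s u').out →
      ∃ P ⊆ E, (∀ e ∈ P, β e ∈ X) ∧ ∀ x, bd α β P x = pt u x + pt u' x := by
    intro u u' h
    have h1 : Quotient.mk s u = Quotient.mk s u' := by
      rw [← Quotient.out_eq (Quotient.mk s u), ← Quotient.out_eq (Quotient.mk s u'), h]
    exact Quotient.exact h1
  have hrep : ∀ u, ∃ P ⊆ E, (∀ e ∈ P, β e ∈ X) ∧
      ∀ x, bd α β P x = pt (Quotient.mk s u).out x + pt u x := by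
    intro u
    exact Quotient.exact (Quotient.out_eq (Quotient.mk s u))
  have hkey : ∀ v ∈ NB, v ∉ X → ∀ u, (∃ P ⊆ E, (∀ e ∈ P, β e ∈ X) ∧
      ∀ x, bd α β P x = pt u x + pt v x) → u = v := by
    rintro v hv hvX u ⟨P, hP, hPX, hb⟩
    by_contra huv
    have h0 : bd α β P v = 0 := by
      refine bd_of_notAt α β (fun e he hAt => ?_)
      rcases hAt with h | h
      · exact (Finset.disjoint_left.mp hdis) (h ▸ (hE e (hP he)).1) hv
      · exact hvX (h ▸ hPX e he)
    rw [hb v, pt_self, pt_ne (fun h => huv h.symm), zero_add] at h0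
    exact one_ne_zero h0
  refine ⟨fun u => (Quotient.mk s u).out, ?_, ?_, hrel⟩
  · intro e he heX
    have h : Quotient.mk s (α e) = Quotient.mk s (β e) := by
      apply Quotient.sound
      refine ⟨{e}, Finset.singleton_subset_iff.mpr he, ?_, fun x => bd_singleton α β e x⟩
      intro e' he'
      rw [Finset.mem_singleton] at he'
      rw [he']
      exact heX
    show (Quotient.mk s (α e)).out = (Quotient.mk s (β e)).out
    rw [h]
  · intro v hv hvX
    refine ⟨hkey v hv hvX _ (hrep v), ?_⟩
    intro u hu
    have hu' : (Quotient.mk s u).out = v := hu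
    obtain ⟨P, hP, hPX, hb⟩ := hrep u
    refine hkey v hv hvX u ⟨P, hP, hPX, fun x => ?_⟩
    rw [hb x, hu', add_comm]

end Pool.Agent.Helper24.NF
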